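import Pool.Agent.helper85.SQ.Defs
import Pool.Agent.helper85.BVP.Bilinear

/-!
# Bilinear forms in a reduced residue class, general modulus
-/

namespace Pool.Agent.helper85.SQ

open Finset ArithmeticFunction Pool.Agent.helper85.BVP

/-- the kernel `kr` on `ZMod q`. -/
noncomputable def kzr (q : ℕ) (c : ZMod q) (x : ZMod q) : ℝ :=
  open Classical in
  (if x = c then 1 else 0) - (if IsUnit x then 1 / (Nat.totient q : ℝ) else 0)

lemma kr_eq (q c n : ℕ) : kr q c n = kzr q (c : ZMod q) (n : ZMod q) := by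
  classical
  rw [kr, kzr]
  have h1 : (n ≡ c [MOD q]) ↔ ((n : ZMod q) = (c : ZMod q)) :=
    (ZMod.natCast_eq_natCast_iff n c q).symm
  have h2 : Nat.Coprime n q ↔ IsUnit (n : ZMod q) := (ZMod.isUnit_iff_coprime n q).symm
  congr 1
  · exact if_congr h1 rfl rfl
  · exact if_congr h2 rfl rfl

section
variable (q : ℕ) [hq : NeZero q]

lemma card_units' : (((univ : Finset (ZMod q)).filter (fun x => IsUnit x)).card : ℕ)
    = Nat.totient q := by
  classical
  rw [← ZMod.card_units_eq_totient q, ← Finset.card_univ]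
  symm
  refine Finset.card_bij (fun (u : (ZMod q)ˣ) _ => (u : ZMod q)) ?_ ?_ ?_
  · intro u _
    rw [mem_filter]
    exact ⟨mem_univ _, u.isUnit⟩
  · intro u _ v _ h
    exact Units.ext h
  · intro x hx
    rw [mem_filter] at hx
    obtain ⟨u, hu⟩ := hx.2
    exact ⟨u, mem_univ _, hu⟩

lemma sum_kzr (c : ZMod q) : ∑ x : ZMod q, kzr q c x = 0 := by
  classical
  have h0 : ∑ x : ZMod q, kzr q c x = ∑ x : ZMod q, (if x = c then (1 : ℝ) else 0)
      - ∑ x ∈ (univ : Finset (ZMod q)).filter (fun x => IsUnit x), 1 / (Nat.totient q : ℝ) := by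
    rw [sum_filter, ← sum_sub_distrib]
    refine sum_congr rfl fun x _ => ?_
    rw [kzr]
    congr 1
    split_ifs <;> rfl
  rw [h0, sum_ite_eq' univ c, if_pos (mem_univ c), sum_const, nsmul_eq_mul]
  have h := card_units' q
  have h1 : (((univ : Finset (ZMod q)).filter (fun x => IsUnit x)).card : ℝ)
    = (Nat.totient q : ℝ) := by exact_mod_cast h
  rw [h1]
  have h2 : (Nat.totient q : ℝ) ≠ 0 := by
    have := Nat.totient_pos.mpr (Nat.pos_of_ne_zero hq.out)
    exact_mod_cast this.ne'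
  field_simp
  ring

lemma sum_kzr_mul (c : ZMod q) (hc : IsUnit c) (h : ZMod q) :
    ∑ k : ZMod q, kzr q c (h * k) = 0 := by
  classical
  by_cases h0 : IsUnit h
  · rw [← sum_kzr q c]
    obtain ⟨u, rfl⟩ := h0
    exact Fintype.sum_equiv (Units.mulLeft u) _ _ (fun k => rfl)
  · refine sum_eq_zero fun k _ => ?_
    have h1 : ¬ IsUnit (h * k) := fun h' => h0 (isUnit_of_mul_isUnit_left h')
    have h2 : h * k ≠ c := fun h' => h1 (h' ▸ hc)
    rw [kzr, if_neg h2, if_neg h1, sub_zero]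

/-- shifting by constants does not change the form. -/
lemma form_shift' (c : ZMod q) (hc : IsUnit c) (A B : ZMod q → ℝ) (z w : ℝ) :
    ∑ h : ZMod q, ∑ k : ZMod q, A h * B k * kzr q c (h * k)
      = ∑ h : ZMod q, ∑ k : ZMod q, (A h - z) * (B k - w) * kzr q c (h * k) := by
  have h1 : ∀ h : ZMod q, ∑ k : ZMod q, w * kzr q c (h * k) = 0 := fun h => by
    rw [← mul_sum, sum_kzr_mul q c hc, mul_zero]
  have h2 : ∀ k : ZMod q, ∑ h : ZMod q, kzr q c (h * k) = 0 := fun k => by
    rw [← sum_kzr_mul q c hc k]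
    exact sum_congr rfl fun h _ => by rw [mul_comm]
  have e : ∀ h k : ZMod q, (A h - z) * (B k - w) * kzr q c (h * k)
      = A h * B k * kzr q c (h * k) - (A h - z) * (w * kzr q c (h * k))
        - z * B k * kzr q c (h * k) := by
    intro h k; ring
  simp_rw [e, sum_sub_distrib]
  have h3 : ∑ h : ZMod q, ∑ k : ZMod q, (A h - z) * (w * kzr q c (h * k)) = 0 := by
    refine sum_eq_zero fun h _ => ?_
    rw [← mul_sum, h1, mul_zero]
  have h4 : ∑ h : ZMod q, ∑ k : ZMod q, z * B k * kzr q c (h * k) = 0 := by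
    rw [sum_comm]
    refine sum_eq_zero fun k _ => ?_
    rw [← mul_sum, h2, mul_zero]
  rw [h3, h4]
  ring

lemma form_bound' (c : ZMod q) (hc : IsUnit c) (A B : ZMod q → ℝ) :
    |∑ h : ZMod q, ∑ k : ZMod q, A h * B k * kzr q c (h * k)|
      ≤ 2 * (√(∑ h : ZMod q, A h ^ 2) * √(∑ k : ZMod q, B k ^ 2)) := by
  classical
  have hqr : (0 : ℝ) < (Nat.totient q : ℝ) := by
    have := Nat.totient_pos.mpr (Nat.pos_of_ne_zero hq.out)
    exact_mod_cast this
  set a2 := ∑ h : ZMod q, A h ^ 2 with ha2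
  set b2 := ∑ k : ZMod q, B k ^ 2 with hb2
  set U : Finset (ZMod q) := (univ : Finset (ZMod q)).filter (fun x => IsUnit x) with hU
  have ha0 : 0 ≤ a2 := sum_nonneg fun _ _ => sq_nonneg _
  have hb0 : 0 ≤ b2 := sum_nonneg fun _ _ => sq_nonneg _
  have e : ∑ h : ZMod q, ∑ k : ZMod q, A h * B k * kzr q c (h * k)
      = ∑ x ∈ (univ : Finset (ZMod q × ZMod q)) with x.1 * x.2 = c, A x.1 * B x.2
        - 1 / (Nat.totient q : ℝ) * ((∑ h ∈ U, A h) * ∑ k ∈ U, B k) := by
    have e1 : ∀ h k : ZMod q, A h * B k * kzr q c (h * k)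
        = (if h * k = c then A h * B k else 0)
          - 1 / (Nat.totient q : ℝ)
            * ((if IsUnit h then A h else 0) * (if IsUnit k then B k else 0)) := by
      intro h k
      rw [kzr]
      have hi : IsUnit (h * k) ↔ IsUnit h ∧ IsUnit k := IsUnit.mul_iff
      by_cases hh : IsUnit h
      · by_cases hk : IsUnit k
        · rw [if_pos (hi.mpr ⟨hh, hk⟩), if_pos hh, if_pos hk]
          split_ifs <;> ring
        · rw [if_neg (fun h' => hk (hi.mp h').2), if_pos hh, if_neg hk]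
          split_ifs <;> ring
      · rw [if_neg (fun h' => hh (hi.mp h').1), if_neg hh]
        split_ifs <;> ring
    simp_rw [e1, sum_sub_distrib]
    congr 1
    · rw [sum_filter, ← univ_product_univ, sum_product]
    · simp_rw [← mul_sum]
      congr 1
      rw [← sum_mul, hU, sum_filter, sum_filter]
  rw [e]
  have hsq : √a2 * √b2 = √(a2 * b2) := (Real.sqrt_mul ha0 b2).symm
  have h1 : |∑ x ∈ (univ : Finset (ZMod q × ZMod q)) with x.1 * x.2 = c, A x.1 * B x.2|
      ≤ √a2 * √b2 := by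
    rw [hsq]
    apply Real.abs_le_sqrt
    refine (sum_mul_sq_le_sq_mul_sq _ _ _).trans ?_
    refine mul_le_mul ?_ ?_ (sum_nonneg fun _ _ => sq_nonneg _) ha0
    · rw [ha2, ← sum_fiberwise_of_maps_to (s := (univ : Finset (ZMod q × ZMod q)).filter
        (fun x => x.1 * x.2 = c)) (t := univ) (g := fun x => x.1) (fun _ _ => mem_univ _)]
      refine sum_le_sum fun h _ => ?_
      rw [sum_congr rfl (g := fun _ => A h ^ 2) (fun x hx => by rw [(mem_filter.mp hx).2]),
        sum_const, nsmul_eq_mul]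
      have : #{x ∈ (univ : Finset (ZMod q × ZMod q)).filter (fun x => x.1 * x.2 = c) | x.1 = h} ≤ 1 := by
        rw [card_le_one]
        rintro ⟨x, y⟩ hx ⟨x', y'⟩ hx'
        simp only [mem_filter, mem_univ, true_and] at hx hx'
        obtain ⟨hx1, rfl⟩ := hx
        obtain ⟨hx1', rfl⟩ := hx'
        have hx0 : IsUnit x' := isUnit_of_mul_isUnit_left (hx1 ▸ hc)
        have : y = y' := hx0.mul_left_cancel (hx1.trans hx1'.symm)
        rw [this]
      have : ((#{x ∈ (univ : Finset (ZMod q × ZMod q)).filter (fun x => x.1 * x.2 = c) | x.1 = h} : ℕ) : ℝ)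
          ≤ 1 := by exact_mod_cast this
      nlinarith [sq_nonneg (A h)]
    · rw [hb2, ← sum_fiberwise_of_maps_to (s := (univ : Finset (ZMod q × ZMod q)).filter
        (fun x => x.1 * x.2 = c)) (t := univ) (g := fun x => x.2) (fun _ _ => mem_univ _)]
      refine sum_le_sum fun h _ => ?_
      rw [sum_congr rfl (g := fun _ => B h ^ 2) (fun x hx => by rw [(mem_filter.mp hx).2]),
        sum_const, nsmul_eq_mul]
      have : #{x ∈ (univ : Finset (ZMod q × ZMod q)).filter (fun x => x.1 * x.2 = c) | x.2 = h} ≤ 1 := by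
        rw [card_le_one]
        rintro ⟨x, y⟩ hx ⟨x', y'⟩ hx'
        simp only [mem_filter, mem_univ, true_and] at hx hx'
        obtain ⟨hx1, rfl⟩ := hx
        obtain ⟨hx1', rfl⟩ := hx'
        have hx0 : IsUnit y' := isUnit_of_mul_isUnit_right (hx1 ▸ hc)
        have : x = x' := hx0.mul_right_cancel (hx1.trans hx1'.symm)
        rw [this]
      have : ((#{x ∈ (univ : Finset (ZMod q × ZMod q)).filter (fun x => x.1 * x.2 = c) | x.2 = h} : ℕ) : ℝ)
          ≤ 1 := by exact_mod_cast this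
      nlinarith [sq_nonneg (B h)]
  have hcard : ((#U : ℕ) : ℝ) = (Nat.totient q : ℝ) := by
    have := card_units' q
    exact_mod_cast this
  have hcs : ∀ F : ZMod q → ℝ, |∑ h ∈ U, F h|
      ≤ √((Nat.totient q : ℝ) * ∑ h : ZMod q, F h ^ 2) := by
    intro F
    apply Real.abs_le_sqrt
    refine (sq_sum_le_card_mul_sum_sq).trans ?_
    rw [hcard]
    refine mul_le_mul_of_nonneg_left ?_ hqr.le
    exact sum_le_sum_of_subset_of_nonneg (subset_univ _) (fun _ _ _ => sq_nonneg _)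
  have h2 : |1 / (Nat.totient q : ℝ) * ((∑ h ∈ U, A h) * ∑ k ∈ U, B k)| ≤ √a2 * √b2 := by
    rw [abs_mul, abs_mul, abs_of_pos (by positivity : 0 < 1 / (Nat.totient q : ℝ))]
    have h3 := mul_le_mul (hcs A) (hcs B) (abs_nonneg _) (Real.sqrt_nonneg _)
    rw [← ha2, ← hb2, Real.sqrt_mul hqr.le, Real.sqrt_mul hqr.le] at h3
    have h4 : √(Nat.totient q : ℝ) * √a2 * (√(Nat.totient q : ℝ) * √b2)
        = (Nat.totient q : ℝ) * (√a2 * √b2) := by
      have := Real.mul_self_sqrt hqr.le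
      calc _ = (√(Nat.totient q : ℝ) * √(Nat.totient q : ℝ)) * (√a2 * √b2) := by ring
        _ = _ := by rw [this]
    rw [h4] at h3
    calc 1 / (Nat.totient q : ℝ) * (|∑ h ∈ U, A h| * |∑ k ∈ U, B k|)
        ≤ 1 / (Nat.totient q : ℝ) * ((Nat.totient q : ℝ) * (√a2 * √b2)) := by
          apply mul_le_mul_of_nonneg_left h3 (by positivity)
      _ = √a2 * √b2 := by field_simp
  calc _ ≤ |∑ x ∈ (univ : Finset (ZMod q × ZMod q)) with x.1 * x.2 = c, A x.1 * B x.2|
        + |1 / (Nat.totient q : ℝ) * ((∑ h ∈ U, A h) * ∑ k ∈ U, B k)| := abs_sub _ _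
    _ ≤ √a2 * √b2 + √a2 * √b2 := add_le_add h1 h2
    _ = _ := by ring

lemma sum_val' (f : ℕ → ℝ) : ∑ x : ZMod q, f x.val = ∑ h ∈ range q, f h := by
  refine sum_bij (fun x _ => x.val) (fun x _ => mem_range.mpr (ZMod.val_lt x)) ?_ ?_ ?_
  · intro x _ y _ h
    exact ZMod.val_injective q h
  · intro h hh
    exact ⟨(h : ZMod q), mem_univ _, ZMod.val_natCast_of_lt (mem_range.mp hh)⟩
  · intro x _
    rfl

lemma cls_val' (S : Finset ℕ) (a : ℕ → ℝ) (x : ZMod q) :
    cls S a q x.val = ∑ n ∈ S.filter (fun n : ℕ => (n : ZMod q) = x), a n := by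
  rw [cls]
  congr 1
  ext n
  rw [mem_filter, mem_filter]
  refine and_congr_right fun _ => ?_
  rw [← ZMod.val_natCast]
  exact ⟨fun h => ZMod.val_injective q h, fun h => by rw [h]⟩

end

/-- bilinear form with the kernel `kr`. -/
theorem bil_gen (q c : ℕ) (hq : 0 < q) (hc : Nat.Coprime c q) (S T : Finset ℕ) (α β : ℕ → ℝ) :
    |∑ m ∈ S, ∑ n ∈ T, α m * β n * kr q c (m * n)|
      ≤ 2 * (√(∑ h ∈ range q, (cls S α q h - (∑ n ∈ S, α n) / q) ^ 2)
        * √(∑ h ∈ range q, (cls T β q h - (∑ n ∈ T, β n) / q) ^ 2)) := by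
  have : NeZero q := ⟨hq.ne'⟩
  have hcu : IsUnit (c : ZMod q) := (ZMod.isUnit_iff_coprime c q).mpr hc
  have e : ∑ m ∈ S, ∑ n ∈ T, α m * β n * kr q c (m * n)
      = ∑ h : ZMod q, ∑ k : ZMod q,
        cls S α q h.val * cls T β q k.val * kzr q (c : ZMod q) (h * k) := by
    simp_rw [cls_val', sum_mul_sum, sum_mul]
    rw [← sum_fiberwise_of_maps_to (s := S) (t := (univ : Finset (ZMod q)))
      (g := fun n : ℕ => (n : ZMod q)) (fun _ _ => mem_univ _)]
    refine sum_congr rfl fun h _ => ?_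
    rw [sum_comm (s := (univ : Finset (ZMod q)))]
    refine sum_congr rfl fun m hm => ?_
    rw [← sum_fiberwise_of_maps_to (s := T) (t := (univ : Finset (ZMod q)))
      (g := fun n : ℕ => (n : ZMod q)) (fun _ _ => mem_univ _)]
    refine sum_congr rfl fun k _ => ?_
    refine sum_congr rfl fun n hn => ?_
    rw [kr_eq, Nat.cast_mul, (mem_filter.mp hm).2, (mem_filter.mp hn).2]
  rw [e, form_shift' q _ hcu _ _ ((∑ n ∈ S, α n) / q) ((∑ n ∈ T, β n) / q)]
  refine (form_bound' q _ hcu _ _).trans (le_of_eq ?_)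
  rw [← sum_val' q (fun h => (cls S α q h - (∑ n ∈ S, α n) / q) ^ 2),
    ← sum_val' q (fun h => (cls T β q h - (∑ n ∈ T, β n) / q) ^ 2)]

end Pool.Agent.helper85.SQ
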