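import Pool.Agent.helper21.SQ.BIL
import Pool.Agent.helper97.SQ.VAR

/-!
# Bilinear forms on average over squares of primes
-/

namespace Pool.Agent.helper85.SQ

open Finset ArithmeticFunction Pool.Agent.helper85.BVP

/-- at most one class `u` mod `M` with `u n = b`. -/
lemma classes_disj (M b n u v : ℕ) (hb : Nat.Coprime b M) (hu : u < M)
    (hv : v < M) (h1 : u * n ≡ b [MOD M]) (h2 : v * n ≡ b [MOD M]) : u = v := by
  have hn : Nat.Coprime n M := by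
    have h3 : Nat.Coprime (u * n) M := by
      have := h1.gcd_eq
      rw [Nat.Coprime, Nat.gcd_comm] at hb ⊢
      rw [Nat.gcd_comm M b] at hb
      rw [Nat.gcd_comm M (u * n)]
      rw [this]
      exact hb
    exact Nat.Coprime.coprime_mul_left h3
  have h3 : u * n ≡ v * n [MOD M] := h1.trans h2.symm
  have h4 : u ≡ v [MOD M] := Nat.ModEq.cancel_right_of_coprime (by
    rw [Nat.gcd_comm]; exact hn) h3
  exact Nat.ModEq.eq_of_lt_of_lt h4 hu hv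

/-- splitting the bilinear form into classes mod `M`. -/
lemma split_classes (M b q c : ℕ) (hM : 0 < M) (S T : Finset ℕ) (α β : ℕ → ℝ) :
    ∑ m ∈ S, ∑ n ∈ T, α m * β n * km M b q c (m * n)
      = ∑ u ∈ range M, ∑ m ∈ S.filter (fun m => m % M = u),
        ∑ n ∈ T.filter (fun n => u * n ≡ b [MOD M]), α m * β n * kr q c (m * n) := by
  rw [← sum_fiberwise_of_maps_to (s := S) (t := range M) (g := fun m => m % M)
    (fun m _ => mem_range.mpr (Nat.mod_lt m hM))]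
  refine sum_congr rfl fun u _ => sum_congr rfl fun m hm => ?_
  rw [sum_filter]
  refine sum_congr rfl fun n _ => ?_
  have hmu : m % M = u := (mem_filter.mp hm).2
  have h1 : m ≡ u [MOD M] := by
    rw [← hmu]
    exact (Nat.mod_modEq m M).symm
  have h2 : (m * n ≡ b [MOD M]) ↔ (u * n ≡ b [MOD M]) := by
    have h3 : m * n ≡ u * n [MOD M] := h1.mul_right n
    exact ⟨fun h => h3.symm.trans h, fun h => h3.trans h⟩
  rw [km]
  by_cases h : m * n ≡ b [MOD M]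
  · rw [if_pos h, if_pos (h2.mp h)]
  · rw [if_neg h, if_neg (fun h' => h (h2.mpr h')), mul_zero]

/-- **Bilinear forms on average over squares of primes.** -/
theorem bilinear_sq (M b : ℕ) (hM : 0 < M) (hb : Nat.Coprime b M) (P : Finset ℕ)
    (hP : ∀ p ∈ P, p.Prime) (Q : ℕ) (hQ : 1 ≤ Q) (hPQ : ∀ p ∈ P, p ≤ Q)
    (hPQ' : ∀ p ∈ P, Q ≤ 2 * p) (c : ℕ → ℕ) (hc : ∀ p ∈ P, Nat.Coprime (c p) (p ^ 2))
    (M₁ M' N₁ N : ℕ) (S T : Finset ℕ) (hS : S ⊆ Ioc M₁ (M₁ + M')) (hT : T ⊆ Ioc N₁ (N₁ + N))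
    (α β : ℕ → ℝ) :
    ∑ p ∈ P, |∑ m ∈ S, ∑ n ∈ T, α m * β n * km M b (p ^ 2) (c p) (m * n)|
      ≤ 40 / (Q : ℝ) ^ 2 * √(((M' : ℝ) + Q ^ 4) * ((N : ℝ) + Q ^ 4) * (∑ m ∈ S, α m ^ 2)
        * (∑ n ∈ T, β n ^ 2)) := by
  classical
  have hQr : (0 : ℝ) < Q := by exact_mod_cast hQ
  set Su : ℕ → Finset ℕ := fun u => S.filter (fun m => m % M = u) with hSu
  set Tu : ℕ → Finset ℕ := fun u => T.filter (fun n => u * n ≡ b [MOD M]) with hTu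
  set V : ℕ → ℕ → ℝ := fun p u => ∑ h ∈ range (p ^ 2),
    (cls (Su u) α (p ^ 2) h - (∑ n ∈ Su u, α n) / ((p ^ 2 : ℕ) : ℝ)) ^ 2 with hV
  set W : ℕ → ℕ → ℝ := fun p u => ∑ h ∈ range (p ^ 2),
    (cls (Tu u) β (p ^ 2) h - (∑ n ∈ Tu u, β n) / ((p ^ 2 : ℕ) : ℝ)) ^ 2 with hW
  have hV0 : ∀ p u, 0 ≤ V p u := fun p u => sum_nonneg fun _ _ => sq_nonneg _
  have hW0 : ∀ p u, 0 ≤ W p u := fun p u => sum_nonneg fun _ _ => sq_nonneg _
  have h1 : ∀ p ∈ P, |∑ m ∈ S, ∑ n ∈ T, α m * β n * km M b (p ^ 2) (c p) (m * n)|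
      ≤ ∑ u ∈ range M, 2 * (√(V p u) * √(W p u)) := by
    intro p hp
    rw [split_classes M b (p ^ 2) (c p) hM S T α β]
    refine (abs_sum_le_sum_abs _ _).trans (sum_le_sum fun u _ => ?_)
    exact bil_gen (p ^ 2) (c p) (pow_pos (hP p hp).pos 2) (hc p hp) (Su u) (Tu u) α β
  refine (sum_le_sum h1).trans ?_
  rw [← sum_product', ← mul_sum]
  have h2 : ∑ x ∈ P ×ˢ range M, √(V x.1 x.2) * √(W x.1 x.2)
      ≤ √((∑ x ∈ P ×ˢ range M, V x.1 x.2) * ∑ x ∈ P ×ˢ range M, W x.1 x.2) := by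
    apply Real.le_sqrt_of_sq_le
    refine (sum_mul_sq_le_sq_mul_sq _ _ _).trans (le_of_eq ?_)
    rw [sum_congr rfl fun x _ => Real.sq_sqrt (hV0 x.1 x.2),
      sum_congr rfl fun x _ => Real.sq_sqrt (hW0 x.1 x.2)]
  have key : ∀ (F : ℕ → ℝ), (∀ p, 0 ≤ F p) → ∀ B : ℝ, ∑ p ∈ P, ((p ^ 2 : ℕ) : ℝ) * F p ≤ B →
      ∑ p ∈ P, F p ≤ 4 / (Q : ℝ) ^ 2 * B := by
    intro F hF B hB
    have h3 : ∑ p ∈ P, F p ≤ ∑ p ∈ P, 4 / (Q : ℝ) ^ 2 * (((p ^ 2 : ℕ) : ℝ) * F p) := by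
      refine sum_le_sum fun p hp => ?_
      have h4 : (Q : ℝ) ≤ 2 * p := by exact_mod_cast hPQ' p hp
      have h5 : 1 ≤ 4 / (Q : ℝ) ^ 2 * ((p ^ 2 : ℕ) : ℝ) := by
        rw [div_mul_eq_mul_div, le_div_iff₀ (by positivity)]
        push_cast
        nlinarith
      calc F p = 1 * F p := (one_mul _).symm
        _ ≤ (4 / (Q : ℝ) ^ 2 * ((p ^ 2 : ℕ) : ℝ)) * F p := mul_le_mul_of_nonneg_right h5 (hF p)
        _ = _ := by ring
    refine h3.trans ?_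
    rw [← mul_sum]
    exact mul_le_mul_of_nonneg_left hB (by positivity)
  have hVs : ∑ x ∈ P ×ˢ range M, V x.1 x.2
      ≤ 4 / (Q : ℝ) ^ 2 * (5 * ((M' : ℝ) + Q ^ 4) * ∑ m ∈ S, α m ^ 2) := by
    rw [sum_product_right']
    have h3 : ∀ u ∈ range M, ∑ p ∈ P, V p u
        ≤ 4 / (Q : ℝ) ^ 2 * (5 * ((M' : ℝ) + Q ^ 4) * ∑ m ∈ Su u, α m ^ 2) := fun u _ =>
      key (fun p => V p u) (fun p => hV0 p u) _
        (var_sieve_sq P hP Q hQ hPQ M₁ M' (Su u) ((filter_subset _ _).trans hS) α)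
    refine (sum_le_sum h3).trans (le_of_eq ?_)
    rw [← mul_sum, ← mul_sum]
    congr 2
    exact sum_fiberwise_of_maps_to (s := S) (t := range M) (g := fun m => m % M)
      (fun m _ => mem_range.mpr (Nat.mod_lt m hM)) _
  have hWs : ∑ x ∈ P ×ˢ range M, W x.1 x.2
      ≤ 4 / (Q : ℝ) ^ 2 * (5 * ((N : ℝ) + Q ^ 4) * ∑ n ∈ T, β n ^ 2) := by
    rw [sum_product_right']
    have h3 : ∀ u ∈ range M, ∑ p ∈ P, W p u
        ≤ 4 / (Q : ℝ) ^ 2 * (5 * ((N : ℝ) + Q ^ 4) * ∑ n ∈ Tu u, β n ^ 2) := fun u _ =>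
      key (fun p => W p u) (fun p => hW0 p u) _
        (var_sieve_sq P hP Q hQ hPQ N₁ N (Tu u) ((filter_subset _ _).trans hT) β)
    refine (sum_le_sum h3).trans ?_
    rw [← mul_sum, ← mul_sum]
    refine mul_le_mul_of_nonneg_left (mul_le_mul_of_nonneg_left ?_ (by positivity))
      (by positivity)
    have hd : Set.PairwiseDisjoint (↑(range M)) Tu := by
      intro u hu v hv huv
      rw [Function.onFun, disjoint_left]
      intro n hn1 hn2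
      have e1 := (mem_filter.mp hn1).2
      have e2 := (mem_filter.mp hn2).2
      exact huv (classes_disj M b n u v hb (mem_range.mp (mem_coe.mp hu))
        (mem_range.mp (mem_coe.mp hv)) e1 e2)
    rw [← sum_biUnion hd]
    refine sum_le_sum_of_subset_of_nonneg ?_ (fun _ _ _ => sq_nonneg _)
    exact biUnion_subset.mpr fun u _ => filter_subset _ _
  have hW1 : 0 ≤ ∑ x ∈ P ×ˢ range M, W x.1 x.2 := sum_nonneg fun x _ => hW0 x.1 x.2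
  have hV1 : 0 ≤ ∑ x ∈ P ×ˢ range M, V x.1 x.2 := sum_nonneg fun x _ => hV0 x.1 x.2
  have h3 : √((∑ x ∈ P ×ˢ range M, V x.1 x.2) * ∑ x ∈ P ×ˢ range M, W x.1 x.2)
      ≤ √((20 / (Q : ℝ) ^ 2) ^ 2 * (((M' : ℝ) + Q ^ 4) * ((N : ℝ) + Q ^ 4) * (∑ m ∈ S, α m ^ 2)
        * (∑ n ∈ T, β n ^ 2))) := by
    apply Real.sqrt_le_sqrt
    refine (mul_le_mul hVs hWs hW1 (hV1.trans hVs)).trans (le_of_eq ?_)
    ring
  have h4 : √((20 / (Q : ℝ) ^ 2) ^ 2 * (((M' : ℝ) + Q ^ 4) * ((N : ℝ) + Q ^ 4)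
        * (∑ m ∈ S, α m ^ 2) * (∑ n ∈ T, β n ^ 2)))
      = 20 / (Q : ℝ) ^ 2 * √(((M' : ℝ) + Q ^ 4) * ((N : ℝ) + Q ^ 4)
        * (∑ m ∈ S, α m ^ 2) * (∑ n ∈ T, β n ^ 2)) := by
    rw [Real.sqrt_mul (sq_nonneg _), Real.sqrt_sq (by positivity)]
  rw [h4] at h3
  calc 2 * ∑ x ∈ P ×ˢ range M, √(V x.1 x.2) * √(W x.1 x.2)
      ≤ 2 * (20 / (Q : ℝ) ^ 2 * √(((M' : ℝ) + Q ^ 4) * ((N : ℝ) + Q ^ 4)
        * (∑ m ∈ S, α m ^ 2) * (∑ n ∈ T, β n ^ 2))) := by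
        apply mul_le_mul_of_nonneg_left (h2.trans h3) (by norm_num)
    _ = _ := by ring

end Pool.Agent.helper85.SQ
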