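import Pool.Agent.helper80.SG.Spec2

/-!
# Project sq: module LP5
-/

set_option autoImplicit false
set_option linter.unusedSectionVars false

namespace Pool.Agent.SG

open MvPolynomial Module Pool.Agent.SV

theorem LP5_line (a b : ℂ) : PolyFun (fun t : ℂ => a + t * (b - a)) :=
  (PolyFun.const a).add (PolyFun.id.mul (PolyFun.const (b - a)))

theorem LP5_fnl {ι κ : Type} [Fintype ι] [DecidableEq ι] [Fintype κ] [DecidableEq κ]
    (hPLY : PLY_stmt) (c : ι → κ) (p : ℂ → ι → ℂ) (hp : ∀ i, PolyFun (fun t => p t i))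
    (o : Option ι) (f : MvPolynomial ι ℂ) : PolyFun (fun t : ℂ => fnl (p t) o f) := by
  have h := (hPLY (ι := ι) (κ := κ)).1 (fun i t => p t i) hp
  rcases o with _ | i
  · have h1 := h f
    have e : (fun t : ℂ => fnl (p t) none f) = fun t => eval (fun i => p t i) f := by
      funext t
      rw [fnl_none]
    rw [e]
    exact h1
  · have h1 := h (pderiv i f)
    have e : (fun t : ℂ => fnl (p t) (some i) f) = fun t => eval (fun i => p t i) (pderiv i f) := by
      funext t
      rw [fnl_some]
    rw [e]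
    exact h1

theorem LP5_roleF {ι κ : Type} [Fintype ι] [DecidableEq ι] [Fintype κ] [DecidableEq κ]
    (hPLY : PLY_stmt) (c : ι → κ) (T : Finset κ) (P₀ P₁ : (ι → ℂ) × (ι → ℂ))
    (o : Option (Fin 3 × Option ι)) (f : MvPolynomial ι ℂ) :
    PolyFun (fun t : ℂ => roleF c T (P₀ + t • (P₁ - P₀)) o f) := by
  have hl1 : ∀ i, PolyFun (fun t : ℂ => (P₀ + t • (P₁ - P₀)).1 i) := fun i => by
    have := LP5_line (P₀.1 i) (P₁.1 i)
    simpa using this
  have hl2 : ∀ i, PolyFun (fun t : ℂ => (P₀ + t • (P₁ - P₀)).2 i) := fun i => by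
    have := LP5_line (P₀.2 i) (P₁.2 i)
    simpa using this
  rcases o with _ | ⟨a, o⟩
  · have e : (fun t : ℂ => roleF c T (P₀ + t • (P₁ - P₀)) none f) = fun t : ℂ =>
        ∑ i ∈ Finset.univ.filter (fun i => c i ∈ T), (P₀ + t • (P₁ - P₀)).2 i *
          fnl ((P₀ + t • (P₁ - P₀)).1) (some i) f := by
      funext t
      show tgtL c T _ f = _
      rw [tgtL_apply]
      refine Finset.sum_congr rfl fun i _ => ?_
      rw [fnl_some]
    rw [e]
    refine PolyFun.sum _ fun i _ => ?_
    exact (hl2 i).mul (LP5_fnl hPLY c (fun t => (P₀ + t • (P₁ - P₀)).1) hl1 (some i) f)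
  · show PolyFun (fun t : ℂ => fnl (ptc c T a (P₀ + t • (P₁ - P₀))) o f)
    refine LP5_fnl hPLY c (fun t => ptc c T a (P₀ + t • (P₁ - P₀))) (fun i => ?_) o f
    unfold ptc
    by_cases hT : c i ∈ T
    · by_cases h0 : a = 0
      · simp only [hT, h0, if_true]
        exact hl1 i
      · by_cases h1 : a = 1
        · simp only [hT, h1, if_true, one_ne_zero, if_false]
          exact hl2 i
        · simp only [hT, h0, h1, if_true, if_false]
          exact (hl1 i).add (hl2 i)
    · simp only [hT, if_false]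
      exact hl1 i

theorem LP5 (hPLY : PLY_stmt) : LP5_stmt := by
  intro ι κ _ _ _ _ c T d t x y v o
  by_cases h : used5 t o = true
  · have e : (fun z : ℂ => Phi5 c T d t (x + z • (y - x)) v o) =
        fun z : ℂ => roleF c T (x + z • (y - x)) o (v : MvPolynomial ι ℂ) := by
      funext z
      rw [Phi5_apply, if_pos h]
    rw [e]
    exact LP5_roleF hPLY c T x y o _
  · have e : (fun z : ℂ => Phi5 c T d t (x + z • (y - x)) v o) = fun z : ℂ => 0 := by
      funext z
      rw [Phi5_apply, if_neg h]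
    rw [e]
    exact PolyFun.const 0

end Pool.Agent.SG

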